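import Pool.Agent.L5helper66.TD.Defs

/-! Project TD (helper66): the prime divisors of `2 p + q` and `2 p - q` (disphenoids). -/

set_option autoImplicit false

namespace Pool.Agent.L5helper84.TD

open Pool.Agent.L5helper66.TD

lemma image_id {R : Type*} [CommRing R] (p q M : ℕ) (r : R)
    (hr : r * r = ((2 * (q : ℤ) ^ 2 - 4 * (p : ℤ) ^ 2 : ℤ) : R))
    (h : ((⟨q, -1⟩ : ℤ√(2 * (q : ℤ) ^ 2 - 4 * (p : ℤ) ^ 2)) ^ (2 * q * M) * ⟨2 * p, 1⟩ ^ (4 * p * M) =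
        ⟨q, 1⟩ ^ (2 * q * M) * ⟨2 * p, -1⟩ ^ (4 * p * M))) :
    ((q : R) - r) ^ (2 * q * M) * (2 * p + r) ^ (4 * p * M) =
      (q + r) ^ (2 * q * M) * (2 * p - r) ^ (4 * p * M) := by
  have h1 := congrArg (Zsqrtd.lift (⟨r, hr⟩ : { r : R // r * r = ((2 * (q : ℤ) ^ 2 - 4 * (p : ℤ) ^ 2 : ℤ) : R) })) h
  simp only [map_mul, map_pow, Zsqrtd.lift_apply_apply] at h1
  have e1 : ((q : ℤ) : R) + ((-1 : ℤ) : R) * r = (q : R) - r := by push_cast; ring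
  have e2 : ((2 * (p : ℤ) : ℤ) : R) + ((1 : ℤ) : R) * r = 2 * (p : R) + r := by push_cast; ring
  have e3 : ((q : ℤ) : R) + ((1 : ℤ) : R) * r = (q : R) + r := by push_cast; ring
  have e4 : ((2 * (p : ℤ) : ℤ) : R) + ((-1 : ℤ) : R) * r = 2 * (p : R) - r := by push_cast; ring
  rw [e1, e2, e3, e4] at h1
  exact h1

theorem com_dis_pow (p q : ℕ) (hp : 0 < p) (hq : 0 < q) (hpq : q ^ 2 < 2 * p ^ 2)
    (hc : Nat.Coprime p q) (M : ℕ) (hM : 0 < M)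
    (h : ((⟨q, -1⟩ : ℤ√(2 * (q : ℤ) ^ 2 - 4 * (p : ℤ) ^ 2)) ^ (2 * q * M) * ⟨2 * p, 1⟩ ^ (4 * p * M) =
        ⟨q, 1⟩ ^ (2 * q * M) * ⟨2 * p, -1⟩ ^ (4 * p * M))) (ℓ : ℕ) (hℓ : ℓ.Prime) (h2 : ℓ ≠ 2) :
    ¬ ℓ ∣ 2 * p + q ∧ ¬ ℓ ∣ 2 * p - q := by
  have : Fact ℓ.Prime := ⟨hℓ⟩
  have hq2p : q < 2 * p := by nlinarith
  have h2l : ¬ ℓ ∣ 2 := fun hd => h2 ((Nat.prime_dvd_prime_iff_eq hℓ Nat.prime_two).mp hd)
  have hpM : 0 < 2 * q * M := by positivity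
  have hpM' : 0 < 4 * p * M := by positivity
  constructor
  · intro hd
    have hlq : ¬ ℓ ∣ q := by
      intro hdq
      have h3 : ℓ ∣ 2 * p := (Nat.dvd_add_left hdq).mp hd
      have h4 : ℓ ∣ p := (hℓ.dvd_mul.mp h3).resolve_left h2l
      have := Nat.dvd_gcd h4 hdq
      rw [hc] at this
      exact hℓ.one_lt.ne' (Nat.dvd_one.mp this)
    have hz : (2 * (p : ZMod ℓ) + q) = 0 := by
      have := (ZMod.natCast_eq_zero_iff (2 * p + q) ℓ).mpr hd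
      push_cast at this
      exact this
    have h2p : (2 * (p : ZMod ℓ)) = - q := eq_neg_of_add_eq_zero_left hz
    have hr : (q : ZMod ℓ) * q = ((2 * (q : ℤ) ^ 2 - 4 * (p : ℤ) ^ 2 : ℤ) : ZMod ℓ) := by
      push_cast
      have : (4 * (p : ZMod ℓ) ^ 2) = (2 * (p : ZMod ℓ)) ^ 2 := by ring
      rw [this, h2p]; ring
    have h5 := image_id p q M (q : ZMod ℓ) hr h
    rw [sub_self, zero_pow hpM.ne', zero_mul] at h5
    have hqne : (q : ZMod ℓ) ≠ 0 := fun h0 => hlq ((ZMod.natCast_eq_zero_iff q ℓ).mp h0)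
    have h2ne : (2 : ZMod ℓ) ≠ 0 := by
      intro h0
      apply h2l
      have : ((2 : ℕ) : ZMod ℓ) = 0 := by exact_mod_cast h0
      exact (ZMod.natCast_eq_zero_iff 2 ℓ).mp this
    have h6 : (q : ZMod ℓ) + q ≠ 0 := by
      rw [← two_mul]; exact mul_ne_zero h2ne hqne
    have h7 : 2 * (p : ZMod ℓ) - q ≠ 0 := by
      rw [h2p]
      have : (-(q : ZMod ℓ) - q) = -(2 * q) := by ring
      rw [this]
      exact neg_ne_zero.mpr (mul_ne_zero h2ne hqne)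
    exact (mul_ne_zero (pow_ne_zero _ h6) (pow_ne_zero _ h7)) h5.symm
  · intro hd
    have hlq : ¬ ℓ ∣ q := by
      intro hdq
      have h3 : ℓ ∣ 2 * p := by
        have := Nat.dvd_add hd hdq
        rwa [Nat.sub_add_cancel hq2p.le] at this
      have h4 : ℓ ∣ p := (hℓ.dvd_mul.mp h3).resolve_left h2l
      have := Nat.dvd_gcd h4 hdq
      rw [hc] at this
      exact hℓ.one_lt.ne' (Nat.dvd_one.mp this)
    -- norms
    have hqn : ‖(q : ℤ_[ℓ])‖ = 1 := by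
      rw [PadicInt.norm_natCast_eq_one_iff]
      exact hℓ.coprime_iff_not_dvd.mpr hlq
    have h2n : ‖(2 : ℤ_[ℓ])‖ = 1 := by
      have h8 : ‖((2 : ℕ) : ℤ_[ℓ])‖ = 1 :=
        PadicInt.norm_natCast_eq_one_iff.mpr (hℓ.coprime_iff_not_dvd.mpr h2l)
      exact_mod_cast h8
    have hdn : ‖(2 * (p : ℤ_[ℓ]) - q)‖ < 1 := by
      have h9 : (((2 * (p : ℤ) - q : ℤ)) : ℤ_[ℓ]) = 2 * (p : ℤ_[ℓ]) - q := by push_cast; ring
      rw [← h9, PadicInt.norm_int_lt_one_iff_dvd]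
      have : ((2 * p - q : ℕ) : ℤ) = 2 * (p : ℤ) - q := by
        rw [Nat.cast_sub hq2p.le]; push_cast; ring
      rw [← this]
      exact_mod_cast hd
    -- Hensel
    obtain ⟨δ, hδ, hδ1⟩ : ∃ δ : ℤ_[ℓ], δ * δ = 2 * (q : ℤ_[ℓ]) ^ 2 - 4 * (p : ℤ_[ℓ]) ^ 2 ∧
        ‖δ - q‖ < 1 := by
      obtain ⟨c, hcc⟩ : ∃ c : ℤ_[ℓ], c = 2 * (q : ℤ_[ℓ]) ^ 2 - 4 * (p : ℤ_[ℓ]) ^ 2 := ⟨_, rfl⟩
      rw [← hcc]
      let F : Polynomial ℤ_[ℓ] := Polynomial.X ^ 2 - Polynomial.C c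
      have hFe : ∀ x : ℤ_[ℓ], F.aeval x = x ^ 2 - c := by
        intro x; simp [F]
      have hFd : ∀ x : ℤ_[ℓ], F.derivative.aeval x = 2 * x := by
        intro x
        simp only [F, Polynomial.derivative_sub, Polynomial.derivative_X_pow, Polynomial.derivative_C, sub_zero]
        simp
      have hFq : F.aeval (q : ℤ_[ℓ]) = (2 * (p : ℤ_[ℓ]) - q) * (2 * (p : ℤ_[ℓ]) + q) := by
        rw [hFe, hcc]; ring
      have hFdq : ‖F.derivative.aeval (q : ℤ_[ℓ])‖ = 1 := by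
        rw [hFd, norm_mul, h2n, hqn, mul_one]
      have hlt : ‖F.aeval (q : ℤ_[ℓ])‖ < ‖F.derivative.aeval (q : ℤ_[ℓ])‖ ^ 2 := by
        rw [hFdq, one_pow, hFq, norm_mul]
        calc ‖(2 * (p : ℤ_[ℓ]) - q)‖ * ‖(2 * (p : ℤ_[ℓ]) + q)‖ ≤ ‖(2 * (p : ℤ_[ℓ]) - q)‖ * 1 :=
              mul_le_mul_of_nonneg_left (PadicInt.norm_le_one _) (norm_nonneg _)
          _ < 1 := by rw [mul_one]; exact hdn
      obtain ⟨δ, hδ, hδ1, -⟩ := hensels_lemma hlt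
      refine ⟨δ, ?_, ?_⟩
      · rw [hFe] at hδ
        linear_combination hδ
      · rwa [hFdq] at hδ1
    have hr : δ * δ = ((2 * (q : ℤ) ^ 2 - 4 * (p : ℤ) ^ 2 : ℤ) : ℤ_[ℓ]) := by
      rw [hδ]; push_cast; ring
    have h5 := congrArg norm (image_id p q M δ hr h)
    rw [norm_mul, norm_mul, norm_pow, norm_pow, norm_pow, norm_pow] at h5
    -- q + δ and 2 p + δ are units
    have h2qn : ‖(2 * (q : ℤ_[ℓ]))‖ = 1 := by rw [norm_mul, h2n, hqn, mul_one]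
    have hu1 : ‖(q : ℤ_[ℓ]) + δ‖ = 1 := by
      have e : (q : ℤ_[ℓ]) + δ = (δ - q) + 2 * q := by ring
      rw [e, IsUltrametricDist.norm_add_eq_max_of_norm_ne_norm (by rw [h2qn]; exact hδ1.ne), h2qn]
      exact max_eq_right hδ1.le
    have hu2 : ‖2 * (p : ℤ_[ℓ]) + δ‖ = 1 := by
      have e : 2 * (p : ℤ_[ℓ]) + δ = ((2 * (p : ℤ_[ℓ]) - q) + (δ - q)) + 2 * q := by ring
      have hlt : ‖(2 * (p : ℤ_[ℓ]) - q) + (δ - q)‖ < 1 :=
        (IsUltrametricDist.norm_add_le_max _ _).trans_lt (max_lt hdn hδ1)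
      rw [e, IsUltrametricDist.norm_add_eq_max_of_norm_ne_norm (by rw [h2qn]; exact hlt.ne), h2qn]
      exact max_eq_right hlt.le
    -- the two small factors have the same norm
    have hn1 : ‖(q : ℤ_[ℓ]) - δ‖ = ‖(2 * (p : ℤ_[ℓ]) - q) * (2 * p + q)‖ := by
      have e : ((q : ℤ_[ℓ]) - δ) * (q + δ) = (2 * (p : ℤ_[ℓ]) - q) * (2 * p + q) := by
        linear_combination -hδ
      rw [← e, norm_mul, hu1, mul_one]
    have hn2 : ‖2 * (p : ℤ_[ℓ]) - δ‖ = ‖(2 * (p : ℤ_[ℓ]) - q) * (2 * p + q)‖ := by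
      have e : (2 * (p : ℤ_[ℓ]) - δ) * (2 * p + δ) = 2 * ((2 * (p : ℤ_[ℓ]) - q) * (2 * p + q)) := by
        linear_combination -hδ
      have e' := congrArg norm e
      rw [norm_mul, norm_mul 2, hu2, h2n, mul_one, one_mul] at e'
      exact e'
    set x : ℝ := ‖(2 * (p : ℤ_[ℓ]) - q) * (2 * p + q)‖ with hx
    have hxlt : x < 1 := by
      rw [hx, norm_mul]
      calc ‖(2 * (p : ℤ_[ℓ]) - q)‖ * ‖(2 * (p : ℤ_[ℓ]) + q)‖ ≤ ‖(2 * (p : ℤ_[ℓ]) - q)‖ * 1 :=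
            mul_le_mul_of_nonneg_left (PadicInt.norm_le_one _) (norm_nonneg _)
        _ < 1 := by rw [mul_one]; exact hdn
    have hxpos : 0 < x := by
      rw [hx, norm_pos_iff]
      apply mul_ne_zero
      · have : ((2 * p - q : ℕ) : ℤ_[ℓ]) ≠ 0 := by
          exact_mod_cast (by omega : 2 * p - q ≠ 0)
        rwa [Nat.cast_sub hq2p.le, Nat.cast_mul, Nat.cast_two] at this
      · have : ((2 * p + q : ℕ) : ℤ_[ℓ]) ≠ 0 := by
          exact_mod_cast (by omega : 2 * p + q ≠ 0)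
        push_cast at this
        exact this
    rw [hu1, hu2, hn1, hn2, one_pow, one_pow, mul_one, one_mul] at h5
    have h10 : 2 * q * M = 4 * p * M := pow_right_injective₀ hxpos hxlt.ne h5
    have h11 : 2 * q = 4 * p := Nat.eq_of_mul_eq_mul_right hM h10
    omega

end Pool.Agent.L5helper84.TD
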